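import Mathlib
import Pool.Agent.H277R2.TensDefs
import Pool.Agent.H277R2.Tens8

set_option autoImplicit false

namespace Pool.Agent.Results.MP_a9d09b_co.TensorizationFails

open Pool.Agent.H277R2.Tens

universe u

/-- For every `d ≥ 4`: over every field the tensorization statement fails for partition rank, and
over every prime field it fails for analytic rank. -/
theorem result : ∀ d : ℕ, 4 ≤ d →
    (∀ (F : Type u) [Field F], ∃ (n : ℕ) (A : Tensor F d (Fin n)), 1 ≤ n ∧
      prank A < prank (idT : Tensor F d (Fin n)) ∧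
      ∀ c : ℝ, c < 1 → ∃ m : ℕ, 1 ≤ m ∧
        c ^ m * (prank (tpow (idT : Tensor F d (Fin n)) m) : ℝ) ≤ (prank (tpow A m) : ℝ)) ∧
    (∀ (p : ℕ) [Fact p.Prime], ∃ (n : ℕ) (A : Tensor (ZMod p) d (Fin n)), 1 ≤ n ∧
      arank A < arank (idT : Tensor (ZMod p) d (Fin n)) ∧
      ∀ c : ℝ, c < 1 → ∃ m : ℕ, 1 ≤ m ∧
        c ^ m * arank (tpow (idT : Tensor (ZMod p) d (Fin n)) m) ≤ arank (tpow A m)) := by
  intro d hd
  obtain ⟨d, rfl⟩ : ∃ d', d = d' + 4 := ⟨d - 4, by omega⟩
  constructor
  · intro F _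
    let e : Fin (Fintype.card (Bool × Fin 2)) ≃ Bool × Fin 2 := (Fintype.equivFin _).symm
    refine ⟨Fintype.card (Bool × Fin 2), reindex e (A0 F d 2), ?_, ?_, ?_⟩
    · exact Fintype.card_pos
    · rw [prank_reindex, prank_idT (d := d + 2), Fintype.card_fin]
      have h1 := prank_le (PRankLE_A0 F d 2)
      have h2 : Fintype.card (Bool × Fin 2) = 4 := by simp
      omega
    · intro c hc
      obtain ⟨m, hm, h⟩ := prank_main F d (le_refl 2) hc
      refine ⟨m, hm, ?_⟩
      rw [tpow_reindex, prank_reindex, ← idT_reindex e, tpow_reindex, prank_reindex]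
      exact h
  · intro p _
    obtain ⟨k, hk⟩ := exists_nat_gt (1 / alpha p (d + 3))
    have hα : 0 < alpha p (d + 3) := alpha_pos (d + 2)
    let e : Fin (Fintype.card (Bool × Fin (k + 2))) ≃ Bool × Fin (k + 2) :=
      (Fintype.equivFin _).symm
    refine ⟨Fintype.card (Bool × Fin (k + 2)), reindex e (A0 (ZMod p) d (k + 2)), ?_, ?_, ?_⟩
    · exact Fintype.card_pos
    · rw [arank_reindex, arank_idT (d + 3), Fintype.card_fin]
      refine (arank_A0_le d (k + 2)).trans_lt ?_
      rw [Fintype.card_prod, Fintype.card_bool, Fintype.card_fin]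
      rw [div_lt_iff₀ hα] at hk
      push_cast
      nlinarith
    · intro c hc
      obtain ⟨m, hm, h⟩ := arank_main (p := p) d (show 2 ≤ k + 2 by omega) hc
      refine ⟨m, hm, ?_⟩
      rw [tpow_reindex, arank_reindex, ← idT_reindex e, tpow_reindex, arank_reindex]
      exact h

end Pool.Agent.Results.MP_a9d09b_co.TensorizationFails
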